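import Mathlib
import Pool.Agent.V7H86.LP.Fin

/-!
# Almost taming forms are cohomologous to taming symplectic forms

`X` is a closed manifold of dimension `d` with a continuous almost complex structure `J`. Near
each point `x`, in a chart, the oscillation of `J` is of smaller order than the power `b` of the
distance, `0 ≤ b < 1` (for `b = 0` this is the continuity of `J`, and if `J` is Lipschitz
continuous, then each `b < 1` is allowed). Then closed two-forms which satisfy a fixed integral
bound and which tame `J` up to a small error in `L^1` are cohomologous to symplectic forms taming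
`J`: there are a finite set `t` of points and `δ > 0` such that this holds for each closed `τ`
which satisfies near the points of `t` the fixed bound and `τ(v, J v) ≥ (c - f) |v| ^ 2` with a
function `f ≥ 0` whose integral is at most `δ`. The bound is one of the following:

* the integral of `|τ| ^ p` is at most `B`, where `p ≥ 1` and `p * b > d - 2`;
* `|τ| ≤ B * (1 + dist(·, K) ^ (-γ))`, where `K` is a set of box dimension at most `k` and
  `γ + k < 2 + b`, `γ + k < d`;
* a Morrey condition along the measures whose balls of radius `s` have mass at most `s ^ a`, for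
  some `a < 2`.

The constant `c` may be zero at the points of a closed set `C` if the connected components of `C`
are small: for instance `C` may have two-dimensional Hausdorff measure zero, or its tangent
spaces may contain no complex line.

Proof. If `τ` is not cohomologous to a taming form, then by the theorem of Hahn and Banach there
is a probability measure `M` on the compact space of pairs `(x, v)`, `v` a unit tangent vector at
`x`, which annihilates the functions `η(v, J v)`, `η` exact, and for which the mean of
`τ(v, J v)` is not positive. Testing with the exterior derivatives of the forms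
`(g(z, z) + s ^ 2) ^ (κ - 1) * g(J z, ·)` one sees that the projection of `M` to `X` gives mass at
most `C * s ^ (2 - 2 κ)` to the balls of radius `s`, for each `κ > 0`. Now one replaces `τ` by the
cohomologous form `τ + ∑ d(χ_i A_i τ)`, where `χ_i` is a partition of unity and `A_i` is the
homotopy operator of the mollification at scale `ε` in the chart `i`; with the bound for `τ` and
the bound for the masses of balls all errors are small in `L^1(M)`.
-/

set_option autoImplicit false

open Set MeasureTheory
open scoped Manifold ContDiff Topology

namespace Pool.Agent.Results.MP_9986fc_gt.AlmostTamingFormsH86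

open Pool.Agent.Y501.SYP Pool.Agent.V7H86.LP

theorem result (d : ℕ) (X : Type) [TopologicalSpace X] [ChartedSpace (ES d) X]
    [IsManifold 𝓘(ℝ, ES d) ∞ X] [CompactSpace X] [T2Space X]
    (J : End (ES d) X) (hJ : IsAlmostComplex J) (C : Set X) (hC : IsClosed C)
    (hsmall : ∀ z ∈ C, SmallAll J (connectedComponentIn C z) z)
    (N : X → Set (ES d)) (hN : ∀ x, N x ∈ 𝓝 (chartAt (ES d) x x)) (b c : X → ℝ)
    (hb : ∀ x, 0 ≤ b x ∧ b x < 1) (hJb : ∀ x, LittleHolder J x (N x) (b x))
    (hc : ∀ x, 0 ≤ c x) (hcC : ∀ x, x ∉ C → 0 < c x) :
    (∀ p B : X → ℝ, (∀ x, 1 ≤ p x ∧ (d : ℝ) - 2 < p x * b x) →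
      AlmostTamingSuffices J N c fun x h =>
        ∫⁻ q in N x, h q ^ p x ∂(vol d) ≤ ENNReal.ofReal (B x)) ∧
    (∀ (K : X → Set (ES d)) (A k γ B : X → ℝ), (∀ x, BoxDimLe (K x) (A x) (k x) ∧ 0 ≤ k x ∧
        0 ≤ γ x ∧ γ x + k x < 2 + b x ∧ γ x + k x < d) →
      AlmostTamingSuffices J N c fun x h =>
        ∀ q ∈ N x, h q ≤ ENNReal.ofReal (B x) * (1 + Metric.infEDist q (K x) ^ (-γ x))) ∧
    (∀ a B : X → ℝ, (∀ x, a x < 2) →
      AlmostTamingSuffices J N c fun x h => MorreyAlong (N x) h (a x) (b x) (B x)) :=
  almostTaming d X J hJ C hC hsmall N hN b c hb hJb hc hcC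

end Pool.Agent.Results.MP_9986fc_gt.AlmostTamingFormsH86
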