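import Pool.Agent.V7H58.SF.Planar
import Pool.Agent.Y501.SY.FinalV
import Pool.Agent.Y391.SY.Haus
import Pool.Agent.Q130.SF.Cls

/-!
# Symplectic forms near a closed two-form with kernels of any dimension

`X` is a closed manifold with a closed two-form `σ`, whose kernels may have any dimension, which may
change from point to point.  We look for symplectic forms `σ + ε (ζ + dα)`, where the closed form `ζ`
is given.  Let `θ` be a formal solution: a two-form, not necessarily closed, such that near the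
degenerate points of `σ` the forms `σ + ε θ`, `ε > 0` small, are nondegenerate at a linear rate.

A basic function is a smooth function whose differential vanishes on the kernels of `σ`.  For a
degenerate point `z` let `C_z` be the component of `z` in the set of the degenerate points at which
all basic functions have the same value as at `z`.

If over every set `C_z` the restriction of `θ - ζ` to the kernels of `σ` is a uniform limit of
restrictions of exact forms, then there is a one-form `α`, supported in a given neighbourhood of the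
degenerate points, such that for all small `ε > 0` the form `σ + ε (ζ + dα)` is symplectic and is
homotopic to `σ + ε θ` by a segment of nondegenerate forms.

A smooth two-form is such a limit over the set of all degenerate points if and only if it is one
over every `C_z`.  It is one over `C_z` if there, on the kernels of `σ`, it is a finite sum of forms
`c da ∧ db` such that `(a, b)` maps the part of `C_z` in the support of `c` onto a null set of the
plane; every smooth two-form is one over `C_z` if `C_z` has two-dimensional Hausdorff measure zero.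
-/

set_option autoImplicit false

open Set MeasureTheory Topology
open scoped Manifold ContDiff

noncomputable section

namespace Pool.Agent.Results.MP_9986fc_gt.ArbitraryCorankH58

open Pool.Agent.Y501.SYP

section defs

variable {V : Type} [NormedAddCommGroup V] [NormedSpace ℝ V] {X : Type} [TopologicalSpace X]
  [ChartedSpace V X]

/-- symplectic forms: smooth, closed and nondegenerate -/
structure IsSymplectic (σ : Form V X 2) : Prop where
  smooth : IsSmooth σ
  closed : IsClosedForm σ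
  nondeg : NondegForm σ

/-- the kernel of `σ` at `x` -/
def Kernel (σ : Form V X 2) (x : X) : Set (TangentSpace 𝓘(ℝ, V) x) :=
  {v | ∀ w : TangentSpace 𝓘(ℝ, V) x, σ x ![v, w] = 0}

/-- the points at which `σ` is degenerate -/
def Degenerate (σ : Form V X 2) : Set X := {x | ∃ v ∈ Kernel σ x, v ≠ 0}

/-- smooth functions whose differential vanishes on the kernels of `σ` -/
structure Basic (σ : Form V X 2) (g : X → ℝ) : Prop where
  smooth : SmoothFun (V := V) g
  null : ∀ x, ∀ v ∈ Kernel σ x, dd g x v = 0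

/-- the degenerate points at which the basic functions have the same values as at `z` -/
def Fibre (σ : Form V X 2) (z : X) : Set X :=
  {y | y ∈ Degenerate σ ∧ ∀ g, Basic σ g → g y = g z}

/-- the component of `z` in its fibre -/
def Comp (σ : Form V X 2) (z : X) : Set X := connectedComponentIn (Fibre σ z) z

/-- the difference of two forms -/
def subF (θ ζ : Form V X 2) : Form V X 2 := fun x => θ x - ζ x

/-- over `C`, and on the kernels of `σ`, the form `κ` is a uniform limit of exact forms: for some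
smooth functions `h_i` and every `δ > 0` there is a one-form `α` with
`|(κ - dα)(v, w)| ≤ δ (∑ |dh_i(v)|) (∑ |dh_i(w)|)` for all kernel vectors `v`, `w` over `C` -/
def LimitOfExact (σ κ : Form V X 2) (C : Set X) : Prop :=
  ∃ (n : ℕ) (h : Fin n → X → ℝ), (∀ i, SmoothFun (V := V) (h i)) ∧ ∀ δ : ℝ, 0 < δ →
    ∃ (α : Form V X 1) (ρ : Form V X 2), IsSmooth α ∧ IsSmooth ρ ∧ IsD α ρ ∧
      ∀ x ∈ C, ∀ v ∈ Kernel σ x, ∀ w ∈ Kernel σ x,
        |κ x ![v, w] - ρ x ![v, w]| ≤ δ * ((∑ i, |dd (h i) x v|) * ∑ i, |dd (h i) x w|)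

/-- over `C`, and on the kernels of `σ`, the form `κ` is a finite sum of forms `c da ∧ db` with
smooth functions such that `(a, b)` maps the part of `C` in the support of `c` onto a Lebesgue null
set of the plane -/
def KernelNullSum (σ κ : Form V X 2) (C : Set X) : Prop :=
  ∃ (n : ℕ) (c a b : Fin n → X → ℝ), (∀ i, SmoothFun (V := V) (c i)) ∧
    (∀ i, SmoothFun (V := V) (a i)) ∧ (∀ i, SmoothFun (V := V) (b i)) ∧
    (∀ i, volume ((fun x => (a i x, b i x)) '' (C ∩ tsupport (c i))) = 0) ∧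
    ∀ x ∈ C, ∀ v ∈ Kernel σ x, ∀ w ∈ Kernel σ x, κ x ![v, w] =
      ∑ i, c i x * (dd (a i) x v * dd (b i) x w - dd (a i) x w * dd (b i) x v)

end defs

/-- near `x` the forms `σ + ε θ`, `0 < ε ≤ c`, are nondegenerate at a linear rate: in the chart at
`x`, every vector `v` has a vector `w` of length at most one such that
`(σ + ε θ)(v, w) ≥ c ε |v|` -/
def LinearRate {d : ℕ} {X : Type} [TopologicalSpace X] [ChartedSpace (ES d) X]
    (σ θ : Form (ES d) X 2) (x : X) : Prop :=
  ∃ c : ℝ, 0 < c ∧ ∀ᶠ q : ES d in 𝓝 (chartAt (ES d) x x), ∀ ε : ℝ, 0 < ε → ε ≤ c →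
    ∀ v : ES d, ∃ w : ES d, ‖w‖ ≤ 1 ∧
      c * ε * ‖v‖ ≤ pb (chartAt (ES d) x).symm σ q ![v, w] +
        ε * pb (chartAt (ES d) x).symm θ q ![v, w]

/-- `C` has two-dimensional Hausdorff measure zero -/
def HausdorffNull {d : ℕ} {X : Type} [TopologicalSpace X] [ChartedSpace (ES d) X] (C : Set X) :
    Prop :=
  ∀ x : X, μH[2] (chartAt (ES d) x '' (C ∩ (chartAt (ES d) x).source)) = 0

attribute [local instance] cs mf

section bridge

variable {d : ℕ} {X : Type} [TopologicalSpace X] [ChartedSpace (ES d) X]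

theorem degenerate_eq (σ : Form (ES d) X 2) :
    Degenerate σ = Pool.Agent.V7H58.SF.Dg (d := d) (X := X) σ := by
  ext x
  constructor
  · rintro ⟨v, h, hv⟩ h1
    exact hv (h1 v h)
  · intro h
    by_contra h1
    apply h
    intro v hv
    by_contra h2
    exact h1 ⟨v, hv, h2⟩

theorem basic_iff (σ : Form (ES d) X 2) (g : X → ℝ) :
    Basic σ g ↔ Pool.Agent.V7H58.SF.Bs (d := d) (X := X) σ g :=
  ⟨fun h => ⟨h.smooth, fun x v hv => h.null x v hv⟩,
    fun h => ⟨h.smooth, fun x v hv => h.null x v hv⟩⟩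

theorem fibre_eq (σ : Form (ES d) X 2) (z : X) :
    Fibre σ z = Pool.Agent.V7H58.SF.Fib (d := d) (X := X) σ z := by
  ext y
  unfold Fibre Pool.Agent.V7H58.SF.Fib
  rw [degenerate_eq]
  exact and_congr Iff.rfl ⟨fun h g hg => h g ((basic_iff σ g).2 hg),
    fun h g hg => h g ((basic_iff σ g).1 hg)⟩

theorem comp_eq (σ : Form (ES d) X 2) (z : X) :
    Comp σ z = connectedComponentIn (Pool.Agent.V7H58.SF.Fib (d := d) (X := X) σ z) z := by
  unfold Comp
  rw [fibre_eq]

theorem limit_iff (σ κ : Form (ES d) X 2) (C : Set X) :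
    LimitOfExact σ κ C ↔ Pool.Agent.V7H58.SF.Approx (d := d) (X := X) σ κ C := by
  constructor
  · rintro ⟨n, h, hh, H⟩
    refine ⟨n, h, hh, fun δ hδ => ?_⟩
    obtain ⟨α, ρ, h1, h2, h3, h4⟩ := H δ hδ
    exact ⟨α, ρ, ⟨(smooth_iff α).1 h1, (smooth_iff ρ).1 h2, (isD_iff α ρ).1 h3⟩,
      fun x hx v w hv hw => h4 x hx v hv w hw⟩
  · rintro ⟨n, h, hh, H⟩
    refine ⟨n, h, hh, fun δ hδ => ?_⟩
    obtain ⟨α, ρ, h1, h4⟩ := H δ hδ
    exact ⟨α, ρ, (smooth_iff α).2 h1.s1, (smooth_iff ρ).2 h1.s2, (isD_iff α ρ).2 h1.isD,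
      fun x hx v hv w hw => h4 x hx v w hv hw⟩

end bridge

/-- **Symplectic forms near a closed two-form.** -/
theorem result (d : ℕ) (X : Type) [TopologicalSpace X] [ChartedSpace (ES d) X]
    [IsManifold 𝓘(ℝ, ES d) ∞ X] [CompactSpace X] [T2Space X] (σ : Form (ES d) X 2)
    (hσ : IsSmooth σ) (hσc : IsClosedForm σ) :
    (∀ ζ θ : Form (ES d) X 2, IsSmooth ζ → IsClosedForm ζ → IsSmooth θ →
      (∀ x ∈ Degenerate σ, LinearRate σ θ x) →
      (∀ z ∈ Degenerate σ, LimitOfExact σ (subF θ ζ) (Comp σ z)) →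
      ∀ W : Set X, IsOpen W → Degenerate σ ⊆ W →
      ∃ (α : Form (ES d) X 1) (ρ : Form (ES d) X 2), IsSmooth α ∧ IsSmooth ρ ∧ IsD α ρ ∧
        (∀ x, x ∉ W → α x = 0 ∧ ρ x = 0) ∧ ∃ ε₀ : ℝ, 0 < ε₀ ∧ ∀ ε : ℝ, 0 < ε → ε ≤ ε₀ →
          IsSymplectic (comb σ ε (addF ζ ρ)) ∧ ∀ s : ℝ, 0 ≤ s → s ≤ 1 →
            NondegForm (segment (comb σ ε θ) (comb σ ε (addF ζ ρ)) s)) ∧
    ∀ κ : Form (ES d) X 2, IsSmooth κ →
      (LimitOfExact σ κ (Degenerate σ) ↔
        ∀ z ∈ Degenerate σ, LimitOfExact σ κ (Comp σ z)) ∧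
      ∀ z ∈ Degenerate σ, (KernelNullSum σ κ (Comp σ z) ∨ HausdorffNull (d := d) (Comp σ z)) →
        LimitOfExact σ κ (Comp σ z) := by
  have hσ' := (smooth_iff σ).1 hσ
  refine ⟨fun ζ θ hζ hζc hθ hR hL W hW hDW => ?_, fun κ hκ => ⟨?_, fun z hz h => ?_⟩⟩
  · have hmem : ∀ x : X, ¬ Pool.Agent.Q130.SF.nd (d := d) (X := X) σ x → x ∈ Degenerate σ := by
      intro x hx
      rw [degenerate_eq]
      exact hx
    have hA : ∀ z ∈ Pool.Agent.V7H58.SF.Dg (d := d) (X := X) σ,
        Pool.Agent.V7H58.SF.Approx (d := d) (X := X) σ (θ - ζ)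
          (connectedComponentIn (Pool.Agent.V7H58.SF.Fib (d := d) (X := X) σ z) z) := by
      intro z hz
      have h1 := (limit_iff σ _ _).1 (hL z (hmem z hz))
      rw [comp_eq] at h1
      exact h1
    have key : ∃ (α : Form (ES d) X 1) (ρ : Form (ES d) X 2), IsSmooth α ∧ IsSmooth ρ ∧
        IsD α ρ ∧ IsClosedForm ρ ∧ (∀ x, x ∉ W → α x = 0 ∧ ρ x = 0) ∧
        ∃ ε₀ : ℝ, 0 < ε₀ ∧ ∀ ε : ℝ, 0 < ε → ε ≤ ε₀ → ∀ s : ℝ, 0 ≤ s → s ≤ 1 →
          ∀ x, Pool.Agent.Q130.SF.nd (d := d) (X := X)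
            (Pool.Agent.Q130.SF.mix (d := d) (X := X) σ θ (addF ζ ρ) ε s) x := by
      obtain ⟨α, ρ, hex, hoff, ε₀, hε₀, hnd⟩ := Pool.Agent.V7H58.SF.mainThm (d := d) (X := X)
        (σ := σ) (ζ := ζ) (θ := θ) hσ' ((smooth_iff ζ).1 hζ) ((smooth_iff θ).1 hθ)
        (fun x hx => hR x (hmem x hx)) hA hW (by rw [← degenerate_eq]; exact hDW)
      exact ⟨α, ρ, (smooth_iff α).2 hex.s1, (smooth_iff ρ).2 hex.s2, (isD_iff α ρ).2 hex.isD,
        (closed_iff ρ).2 hex.closed, hoff, ε₀, hε₀, hnd⟩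
    obtain ⟨α, ρ, g1, g2, g3, g4, hoff, ε₀, hε₀, hnd⟩ := key
    have hseg : ∀ ε s : ℝ,
        (segment (comb σ ε θ) (comb σ ε (addF ζ ρ)) s : Form (ES d) X 2) =
        Pool.Agent.Q130.SF.mix (d := d) (X := X) σ θ (addF ζ ρ) ε s := by
      intro ε s
      funext x
      show (1 - s) • (σ x + ε • θ x) + s • (σ x + ε • addF ζ ρ x) =
        σ x + ε • ((1 - s) • θ x + s • addF ζ ρ x)
      rw [smul_add, smul_add, smul_add, smul_smul, smul_smul, smul_smul, smul_smul,
        mul_comm ε (1 - s), mul_comm ε s]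
      have h2 : (1 - s) • σ x + s • σ x = σ x := by
        rw [← add_smul, sub_add_cancel, one_smul]
      calc (1 - s) • σ x + ((1 - s) * ε) • θ x + (s • σ x + (s * ε) • addF ζ ρ x) =
          ((1 - s) • σ x + s • σ x) + (((1 - s) * ε) • θ x + (s * ε) • addF ζ ρ x) := by abel
        _ = _ := by rw [h2]
    have e1 : (1 : ℝ) • ζ + (1 : ℝ) • ρ = addF ζ ρ := by
      rw [one_smul, one_smul]
      rfl
    have k1 : IsSmooth (addF ζ ρ) := by
      rw [← e1]
      exact Pool.Agent.Q130.SF.smooth_lin hζ g2 1 1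
    have k2 : IsClosedForm (addF ζ ρ) := by
      rw [← e1]
      exact Pool.Agent.Q130.SF.closed_lin hζ g2 hζc g4 1 1
    have e2 : ∀ ε : ℝ, (1 : ℝ) • σ + ε • addF ζ ρ = comb σ ε (addF ζ ρ) := by
      intro ε
      rw [one_smul]
      rfl
    refine ⟨α, ρ, g1, g2, g3, hoff, ε₀, hε₀, fun ε h1 h2 => ⟨⟨?_, ?_, ?_⟩, fun s h3 h4 => ?_⟩⟩
    · rw [← e2]
      exact Pool.Agent.Q130.SF.smooth_lin hσ k1 1 ε
    · rw [← e2]
      exact Pool.Agent.Q130.SF.closed_lin hσ k1 hσc k2 1 ε
    · intro x v hv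
      have h3 := hnd ε h1 h2 1 zero_le_one le_rfl x
      refine h3 v fun w => ?_
      have h4 := hv w
      have h5 : (segment (comb σ ε θ) (comb σ ε (addF ζ ρ)) 1 : Form (ES d) X 2) x =
          comb σ ε (addF ζ ρ) x := by
        show (1 - (1 : ℝ)) • (comb σ ε θ x) + (1 : ℝ) • (comb σ ε (addF ζ ρ) x) =
          comb σ ε (addF ζ ρ) x
        rw [sub_self, zero_smul, zero_add, one_smul]
      rw [← hseg, h5]
      exact h4
    · rw [hseg]
      exact fun x v hv => hnd ε h1 h2 s h3 h4 x v hv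
  · have h1 := Pool.Agent.V7H58.SF.approx_iff (d := d) (X := X) (σ := σ) (κ := κ) hσ'
      ((smooth_iff κ).1 hκ)
    rw [limit_iff, degenerate_eq, h1]
    refine forall_congr' fun z => forall_congr' fun hz => ?_
    rw [limit_iff, comp_eq]
  · rw [limit_iff]
    have hC : IsCompact (Comp σ z) := by
      rw [comp_eq]
      refine Pool.Agent.Y501.SY.compact_comp
        (Pool.Agent.V7H58.SF.isClosed_Fib (d := d) (X := X) hσ' z).isCompact ?_
      refine Pool.Agent.V7H58.SF.Fib.self (d := d) (X := X) ?_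
      rw [← degenerate_eq]
      exact hz
    rcases h with h | h
    · obtain ⟨n, c, a, b, hc, ha, hb, hnull, hrep⟩ := h
      exact Pool.Agent.V7H58.SF.approx_null (d := d) (X := X) hC c a b hc ha hb hnull
        fun x hx v w hv hw => hrep x hx v hv w hw
    · exact Pool.Agent.V7H58.SF.approx_planar (d := d) (X := X) ((smooth_iff κ).1 hκ) hC
        (Pool.Agent.Y391.SY.t_HAUS d X (Comp σ z) h)

end Pool.Agent.Results.MP_9986fc_gt.ArbitraryCorankH58
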