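import Pool.Agent.V7H58.SF.Cone3
import Pool.Agent.V7H58.SF.Usc
import Pool.Agent.Y501.SY.FinalV
import Pool.Agent.Y391.SY.Haus
import Pool.Agent.Q130.SF.Cls

/-!
# Weakly taming closed forms and positivity on their kernels

`X` is a closed manifold with a continuous almost complex structure `J`, and `σ` is a closed
two-form such that `σ(v, Jv) ≥ 0` for all tangent vectors `v` at the points near the set `D` of
the degenerate points of `σ`.  The kernels of `σ` may have any dimension; there may be null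
vectors, `σ(v, Jv) = 0`, outside the kernels.

A form `η` is positive over a set `C` of degenerate points if `η(v, Jv) > 0` for the nonzero
kernel vectors `v` of `σ` at the points of `C`.  If a closed form `η` is positive over `D`, then
the forms `σ + ε η` are symplectic for all small `ε > 0`, and for every two-form `τ`, not
necessarily closed, which is positive over `D`, for instance if `τ` tames `J`, the segments from
`σ + ε τ` to `σ + ε η` consist of nondegenerate forms for all small `ε > 0`.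

A basic function is a smooth function whose differential vanishes on the kernels of `σ`.  For `z`
in `D` let `C_z` be the component of `z` in the set of the points of `D` at which all basic
functions have the same value as at `z`.  Let `ζ₀` and `ζ_1, …, ζ_b`, where `b ≥ 0`, be closed
forms.  There are real numbers `t_k` and a one-form `α` such that `ζ₀ + ∑ t_k ζ_k + dα` is positive
over `D` if and only if for any `b + 1` points `z_0, …, z_b` of `D` there are real numbers `t_k`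
such that for every `j` there is a one-form `α_j` for which `ζ₀ + ∑ t_k ζ_k + dα_j` is positive
over `C_{z_j}`.  In particular, for `b = 0`, some `ζ₀ + dα` is positive over `D` if and only if for
every `z` in `D` some `ζ₀ + dα` is positive over `C_z`; and then `α` may be supported in a given
neighbourhood of `D`.  There is such a form over `C_z` for all `ζ₀` if `C_z` has two-dimensional
Hausdorff measure zero; and there is one if some `ζ₀ + dα` is nonnegative on the kernels over `C_z`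
and the components of the set where it is not positive have two-dimensional Hausdorff measure zero.

If `σ(v, Jv) ≥ 0` everywhere, with equality only for kernel vectors, the condition on the
`b + 1` points is equivalent to the existence of `t_k` and `α` such that all forms
`σ + ε (ζ₀ + ∑ t_k ζ_k + dα)`, with `ε > 0` small, are symplectic and tame `J`.

Suppose that the classes of `ζ_1, …, ζ_b` span the second cohomology.  Then there is a closed form
which is positive over `D` if and only if for any `b + 1` points `z_0, …, z_b` of `D` there is a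
closed form which is positive over `C_{z_0}, …, C_{z_b}`.  If `σ(v, Jv) ≥ 0` everywhere, with
equality only for kernel vectors, this holds if and only if `J` is tamed by a symplectic form.
-/

set_option autoImplicit false

open Set MeasureTheory Topology
open scoped Manifold ContDiff

noncomputable section

namespace Pool.Agent.Results.MP_9986fc_gt.KernelTamingH58

open Pool.Agent.Y501.SYP

section defs

variable {V : Type} [NormedAddCommGroup V] [NormedSpace ℝ V] {X : Type} [TopologicalSpace X]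
  [ChartedSpace V X]

/-- symplectic forms: smooth, closed and nondegenerate -/
structure IsSymplectic (σ : Form V X 2) : Prop where
  smooth : IsSmooth σ
  closed : IsClosedForm σ
  nondeg : NondegForm σ

/-- the kernel of `σ` at `x` -/
def Kernel (σ : Form V X 2) (x : X) : Set (TangentSpace 𝓘(ℝ, V) x) :=
  {v | ∀ w : TangentSpace 𝓘(ℝ, V) x, σ x ![v, w] = 0}

/-- the points at which `σ` is degenerate -/
def Degenerate (σ : Form V X 2) : Set X := {x | ∃ v ∈ Kernel σ x, v ≠ 0}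

/-- smooth functions whose differential vanishes on the kernels of `σ` -/
structure Basic (σ : Form V X 2) (g : X → ℝ) : Prop where
  smooth : SmoothFun (V := V) g
  null : ∀ x, ∀ v ∈ Kernel σ x, dd g x v = 0

/-- the degenerate points at which the basic functions have the same values as at `z` -/
def Fibre (σ : Form V X 2) (z : X) : Set X :=
  {y | y ∈ Degenerate σ ∧ ∀ g, Basic σ g → g y = g z}

/-- the component of `z` in its fibre -/
def Comp (σ : Form V X 2) (z : X) : Set X := connectedComponentIn (Fibre σ z) z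

/-- `η` is positive on the kernels of `σ` over `C` -/
def PosOn (σ : Form V X 2) (J : End V X) (η : Form V X 2) (C : Set X) : Prop :=
  ∀ x ∈ C, ∀ v ∈ Kernel σ x, v ≠ 0 → 0 < qd η J x v

/-- some form `ζ + dα` is positive on the kernels of `σ` over `C` -/
def Solvable (σ : Form V X 2) (J : End V X) (ζ : Form V X 2) (C : Set X) : Prop :=
  ∃ (α : Form V X 1) (ρ : Form V X 2), IsSmooth α ∧ IsSmooth ρ ∧ IsD α ρ ∧
    PosOn σ J (addF ζ ρ) C

/-- the points of `C` with a nonzero kernel vector of `σ` which is null for `η` -/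
def Exceptional (σ : Form V X 2) (J : End V X) (η : Form V X 2) (C : Set X) : Set X :=
  {x | x ∈ C ∧ ∃ v ∈ Kernel σ x, v ≠ 0 ∧ qd η J x v = 0}

/-- the form `ζ₀ + ∑ t_k ζ_k` -/
def family {b : ℕ} (ζ₀ : Form V X 2) (ζ : Fin b → Form V X 2) (t : Fin b → ℝ) : Form V X 2 :=
  fun x => ζ₀ x + ∑ k, t k • ζ k x

/-- (H): for any `b + 1` points `z_j` of `D` there are `t_k` such that for every `j` some form
`ζ₀ + ∑ t_k ζ_k + dα_j` is positive on the kernels of `σ` over `C_{z_j}` -/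
def Helly (σ : Form V X 2) (J : End V X) {b : ℕ} (ζ₀ : Form V X 2) (ζ : Fin b → Form V X 2) :
    Prop :=
  ∀ z : Fin (b + 1) → X, (∀ j, z j ∈ Degenerate σ) →
    ∃ t : Fin b → ℝ, ∀ j, Solvable σ J (family ζ₀ ζ t) (Comp σ (z j))

/-- for any `n` points `z_j` of `D` some closed form is positive on the kernels of `σ` over all
sets `C_{z_j}` -/
def PointsClosed (σ : Form V X 2) (J : End V X) (n : ℕ) : Prop :=
  ∀ z : Fin n → X, (∀ j, z j ∈ Degenerate σ) →
    ∃ η : Form V X 2, IsSmooth η ∧ IsClosedForm η ∧ ∀ j, PosOn σ J η (Comp σ (z j))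

/-- some form `ζ + dα`, where `α` is supported in `W`, is positive on the kernels of `σ` -/
def SolvableIn (σ : Form V X 2) (J : End V X) (ζ : Form V X 2) (W : Set X) : Prop :=
  ∃ (α : Form V X 1) (ρ : Form V X 2), IsSmooth α ∧ IsSmooth ρ ∧ IsD α ρ ∧
    (∀ x, x ∉ W → α x = 0 ∧ ρ x = 0) ∧ PosOn σ J (addF ζ ρ) (Degenerate σ)

/-- for all small `ε > 0` the form `σ + ε η` is symplectic, and the segment from `σ + ε τ` to it
consists of nondegenerate forms -/
def SymplecticNear (σ η τ : Form V X 2) : Prop :=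
  ∃ ε₀ : ℝ, 0 < ε₀ ∧ ∀ ε : ℝ, 0 < ε → ε ≤ ε₀ →
    IsSymplectic (comb σ ε η) ∧ ∀ s : ℝ, 0 ≤ s → s ≤ 1 →
      NondegForm (segment (comb σ ε τ) (comb σ ε η) s)

/-- for some `α` all forms `σ + ε (ζ + dα)`, with `ε > 0` small, are symplectic and tame `J` -/
def TamingNear (σ : Form V X 2) (J : End V X) (ζ : Form V X 2) : Prop :=
  ∃ (α : Form V X 1) (ρ : Form V X 2) (ε₀ : ℝ), IsSmooth α ∧ IsSmooth ρ ∧ IsD α ρ ∧ 0 < ε₀ ∧
    ∀ ε : ℝ, 0 < ε → ε ≤ ε₀ → IsTamingSymplectic (comb σ ε (addF ζ ρ)) J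

/-- `σ(v, Jv) ≥ 0`, with equality only for kernel vectors -/
def Semipositive (σ : Form V X 2) (J : End V X) : Prop :=
  (∀ (x : X) (v : TangentSpace 𝓘(ℝ, V) x), 0 ≤ qd σ J x v) ∧
    ∀ (x : X) (v : TangentSpace 𝓘(ℝ, V) x), qd σ J x v = 0 → v ∈ Kernel σ x

/-- the classes of the forms `ζ_k` span the second cohomology -/
def Spans {b : ℕ} (ζ : Fin b → Form V X 2) : Prop :=
  ∀ η : Form V X 2, IsSmooth η → IsClosedForm η →
    ∃ (t : Fin b → ℝ) (α : Form V X 1) (ρ : Form V X 2),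
      IsSmooth α ∧ IsSmooth ρ ∧ IsD α ρ ∧ η = addF (family (fun _ => 0) ζ t) ρ

end defs

section

variable {d : ℕ} {X : Type} [TopologicalSpace X] [ChartedSpace (ES d) X]

/-- `C` has two-dimensional Hausdorff measure zero -/
def HausdorffNull (C : Set X) : Prop :=
  ∀ x : X, μH[2] (chartAt (ES d) x '' (C ∩ (chartAt (ES d) x).source)) = 0

/-- some form `ζ + dα` is nonnegative on the kernels of `σ` over `C`, and the components of the
set of the exceptional points have two-dimensional Hausdorff measure zero -/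
def AlmostSolvable (σ : Form (ES d) X 2) (J : End (ES d) X) (ζ : Form (ES d) X 2) (C : Set X) :
    Prop :=
  ∃ (α : Form (ES d) X 1) (ρ : Form (ES d) X 2), IsSmooth α ∧ IsSmooth ρ ∧ IsD α ρ ∧
    (∀ x ∈ C, ∀ v ∈ Kernel σ x, 0 ≤ qd (addF ζ ρ) J x v) ∧
    ∀ z ∈ Exceptional σ J (addF ζ ρ) C,
      HausdorffNull (d := d) (connectedComponentIn (Exceptional σ J (addF ζ ρ) C) z)

end

attribute [local instance] cs mf

section bridge

variable {d : ℕ} {X : Type} [TopologicalSpace X] [ChartedSpace (ES d) X]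

theorem degenerate_eq (σ : Form (ES d) X 2) :
    Degenerate σ = Pool.Agent.V7H58.SF.Dg (d := d) (X := X) σ := by
  ext x
  constructor
  · rintro ⟨v, h, hv⟩ h1
    exact hv (h1 v h)
  · intro h
    by_contra h1
    apply h
    intro v hv
    by_contra h2
    exact h1 ⟨v, hv, h2⟩

theorem basic_iff (σ : Form (ES d) X 2) (g : X → ℝ) :
    Basic σ g ↔ Pool.Agent.V7H58.SF.Bs (d := d) (X := X) σ g :=
  ⟨fun h => ⟨h.smooth, fun x v hv => h.null x v hv⟩,
    fun h => ⟨h.smooth, fun x v hv => h.null x v hv⟩⟩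

theorem comp_eq (σ : Form (ES d) X 2) (z : X) :
    Comp σ z = connectedComponentIn (Pool.Agent.V7H58.SF.Fib (d := d) (X := X) σ z) z := by
  have h : Fibre σ z = Pool.Agent.V7H58.SF.Fib (d := d) (X := X) σ z := by
    ext y
    unfold Fibre Pool.Agent.V7H58.SF.Fib
    rw [degenerate_eq]
    exact and_congr Iff.rfl ⟨fun h g hg => h g ((basic_iff σ g).2 hg),
      fun h g hg => h g ((basic_iff σ g).1 hg)⟩
  unfold Comp
  rw [h]

theorem posOn_iff (σ : Form (ES d) X 2) (J : End (ES d) X) (η : Form (ES d) X 2) (C : Set X) :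
    PosOn σ J η C ↔ ∀ x ∈ C, Pool.Agent.V7H58.SF.PosK (d := d) (X := X) σ J η x :=
  Iff.rfl

theorem solvable_iff (σ : Form (ES d) X 2) (J : End (ES d) X) (ζ : Form (ES d) X 2)
    (C : Set X) : Solvable σ J ζ C ↔ Pool.Agent.V7H58.SF.Solv (d := d) (X := X) σ J ζ C := by
  constructor
  · rintro ⟨α, ρ, h1, h2, h3, h4⟩
    exact ⟨α, ρ, ⟨(smooth_iff α).1 h1, (smooth_iff ρ).1 h2, (isD_iff α ρ).1 h3⟩, h4⟩
  · rintro ⟨α, ρ, h1, h4⟩
    exact ⟨α, ρ, (smooth_iff α).2 h1.s1, (smooth_iff ρ).2 h1.s2, (isD_iff α ρ).2 h1.isD, h4⟩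

theorem family_eq {b : ℕ} (ζ₀ : Form (ES d) X 2) (ζ : Fin b → Form (ES d) X 2) (t : Fin b → ℝ) :
    family ζ₀ ζ t = Pool.Agent.V7H58.SF.fam (d := d) (X := X) ζ₀ ζ t := by
  funext x
  exact (Pool.Agent.V7H58.SF.fam_val (d := d) (X := X) ζ₀ ζ t x).symm

theorem add_closed {ζ η : Form (ES d) X 2} (hζ : IsSmooth ζ) (hζc : IsClosedForm ζ)
    (hη : IsSmooth η) (hηc : IsClosedForm η) (a b : ℝ) :
    IsSmooth (fun x => a • ζ x + b • η x) ∧ IsClosedForm (fun x => a • ζ x + b • η x) :=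
  ⟨Pool.Agent.Q130.SF.smooth_lin hζ hη a b, Pool.Agent.Q130.SF.closed_lin hζ hη hζc hηc a b⟩

theorem family_closed {b : ℕ} {ζ₀ : Form (ES d) X 2} {ζ : Fin b → Form (ES d) X 2}
    (h₀ : IsSmooth ζ₀) (h₀c : IsClosedForm ζ₀) (hζ : ∀ k, IsSmooth (ζ k))
    (hζc : ∀ k, IsClosedForm (ζ k)) (t : Fin b → ℝ) :
    IsSmooth (family ζ₀ ζ t) ∧ IsClosedForm (family ζ₀ ζ t) := by
  classical
  have key : ∀ s : Finset (Fin b), IsSmooth (fun x => ζ₀ x + ∑ k ∈ s, t k • ζ k x) ∧
      IsClosedForm (fun x => ζ₀ x + ∑ k ∈ s, t k • ζ k x) := by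
    intro s
    induction s using Finset.induction_on with
    | empty =>
      have h1 : (fun x => ζ₀ x + ∑ k ∈ (∅ : Finset (Fin b)), t k • ζ k x) = ζ₀ := by
        funext x
        rw [Finset.sum_empty, add_zero]
      rw [h1]
      exact ⟨h₀, h₀c⟩
    | insert a s ha ih =>
      have h1 : (fun x => ζ₀ x + ∑ k ∈ insert a s, t k • ζ k x) =
          fun x => (1 : ℝ) • (ζ₀ x + ∑ k ∈ s, t k • ζ k x) + t a • ζ a x := by
        funext x
        rw [Finset.sum_insert ha, one_smul]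
        abel
      rw [h1]
      exact add_closed ih.1 ih.2 (hζ a) (hζc a) 1 (t a)
  exact key Finset.univ

end bridge

/-- **Weakly taming closed forms and positivity on their kernels.** -/
theorem result (d : ℕ) (X : Type) [TopologicalSpace X] [ChartedSpace (ES d) X]
    [IsManifold 𝓘(ℝ, ES d) ∞ X] [CompactSpace X] [T2Space X]
    (J : End (ES d) X) (hJ : IsAlmostComplex J) (σ : Form (ES d) X 2)
    (hσ : IsSmooth σ) (hσc : IsClosedForm σ)
    (N : Set X) (hN : IsOpen N) (hDN : Degenerate σ ⊆ N)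
    (hw : ∀ x ∈ N, ∀ v : TangentSpace 𝓘(ℝ, ES d) x, 0 ≤ qd σ J x v)
    (b : ℕ) (ζ : Fin b → Form (ES d) X 2) (hζ : ∀ k, IsSmooth (ζ k))
    (hζc : ∀ k, IsClosedForm (ζ k)) :
    (∀ η : Form (ES d) X 2, IsSmooth η → IsClosedForm η → PosOn σ J η (Degenerate σ) →
      ∀ τ : Form (ES d) X 2, IsSmooth τ → PosOn σ J τ (Degenerate σ) → SymplecticNear σ η τ) ∧
    (∀ ζ₀ : Form (ES d) X 2, IsSmooth ζ₀ → IsClosedForm ζ₀ →
      ((∃ t : Fin b → ℝ, Solvable σ J (family ζ₀ ζ t) (Degenerate σ)) ↔ Helly σ J ζ₀ ζ) ∧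
      (Solvable σ J ζ₀ (Degenerate σ) → ∀ W : Set X, IsOpen W → Degenerate σ ⊆ W →
        SolvableIn σ J ζ₀ W) ∧
      (∀ z ∈ Degenerate σ,
        (HausdorffNull (d := d) (Comp σ z) ∨ AlmostSolvable σ J ζ₀ (Comp σ z)) →
          Solvable σ J ζ₀ (Comp σ z)) ∧
      (Semipositive σ J →
        ((∃ t : Fin b → ℝ, TamingNear σ J (family ζ₀ ζ t)) ↔ Helly σ J ζ₀ ζ))) ∧
    (Spans ζ →
      ((∃ η : Form (ES d) X 2, IsSmooth η ∧ IsClosedForm η ∧ PosOn σ J η (Degenerate σ)) ↔
        PointsClosed σ J (b + 1)) ∧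
      (Semipositive σ J →
        ((∃ θ : Form (ES d) X 2, IsTamingSymplectic θ J) ↔ PointsClosed σ J (b + 1)))) := by
  have hσ' := (smooth_iff σ).1 hσ
  have hζ' : ∀ k, Pool.Agent.Y501.SY.IsSmooth (d := d) (X := X) (ζ k) :=
    fun k => (smooth_iff (ζ k)).1 (hζ k)
  have hJ' := ac_of J hJ
  have hDN' : Pool.Agent.V7H58.SF.Dg (d := d) (X := X) σ ⊆ N := by
    rw [← degenerate_eq]
    exact hDN
  have hwD : ∀ x ∈ Pool.Agent.V7H58.SF.Dg (d := d) (X := X) σ,
      ∀ v : TangentSpace 𝓘(ℝ, ES d) x, 0 ≤ qd σ J x v := fun x hx => hw x (hDN' hx)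
  have sub : ∀ z, Comp σ z ⊆ Degenerate σ := fun z x hx => (connectedComponentIn_subset _ _ hx).1
  have zs : IsSmooth (fun _ => 0 : Form (ES d) X 2) :=
    (smooth_iff _).2 (Pool.Agent.Y501.SY.IsSmooth.zero (d := d) (X := X))
  have zc : IsClosedForm (fun _ => 0 : Form (ES d) X 2) := by
    have h1 := (Pool.Agent.V7H58.SF.Ex.zero (d := d) (X := X)).closed
    exact (closed_iff _).2 h1
  -- closedness and smoothness of the sums
  have sumc : ∀ (η ρ : Form (ES d) X 2), IsSmooth η → IsClosedForm η → IsSmooth ρ →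
      IsClosedForm ρ → IsSmooth (addF η ρ) ∧ IsClosedForm (addF η ρ) := by
    intro η ρ h1 h2 h3 h4
    obtain ⟨g1, g2⟩ := add_closed h1 h2 h3 h4 1 1
    have g3 : (fun x => (1 : ℝ) • η x + (1 : ℝ) • ρ x) = addF η ρ := by
      funext x
      rw [one_smul, one_smul]
      rfl
    rw [g3] at g1 g2
    exact ⟨g1, g2⟩
  have combc : ∀ (η : Form (ES d) X 2) (ε : ℝ), IsSmooth η → IsClosedForm η →
      IsSmooth (comb σ ε η) ∧ IsClosedForm (comb σ ε η) := by
    intro η ε h1 h2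
    obtain ⟨g1, g2⟩ := add_closed hσ hσc h1 h2 1 ε
    have g3 : (fun x => (1 : ℝ) • σ x + ε • η x) = comb σ ε η := by
      funext x
      rw [one_smul]
      rfl
    rw [g3] at g1 g2
    exact ⟨g1, g2⟩
  have exc : ∀ (α : Form (ES d) X 1) (ρ : Form (ES d) X 2), IsSmooth α → IsSmooth ρ →
      IsD α ρ → IsClosedForm ρ := by
    intro α ρ h1 h2 h3
    exact (closed_iff ρ).2 (Pool.Agent.V7H58.SF.Ex.closed (d := d) (X := X) (α := α) (ρ := ρ)
      ⟨(smooth_iff α).1 h1, (smooth_iff ρ).1 h2, (isD_iff α ρ).1 h3⟩)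
  -- local to global for one class
  have loc : ∀ ζ₀ : Form (ES d) X 2, IsSmooth ζ₀ →
      (∀ z ∈ Degenerate σ, Solvable σ J ζ₀ (Comp σ z)) → ∀ W : Set X, IsOpen W →
      Degenerate σ ⊆ W → ∃ (α : Form (ES d) X 1) (ρ : Form (ES d) X 2), IsSmooth α ∧
        IsSmooth ρ ∧ IsD α ρ ∧ (∀ x, x ∉ W → α x = 0 ∧ ρ x = 0) ∧
          PosOn σ J (addF ζ₀ ρ) (Degenerate σ) := by
    intro ζ₀ h₀ h W hW hDW
    obtain ⟨α, ρ, hex, hoff, hpos⟩ := Pool.Agent.V7H58.SF.solv_of_comp (d := d) (X := X)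
      (σ := σ) (J := J) hσ' hJ' hwD (ζ := ζ₀) ((smooth_iff ζ₀).1 h₀) (fun z hz => by
        have h1 := (solvable_iff σ J ζ₀ _).1 (h z (by rw [degenerate_eq]; exact hz))
        rw [comp_eq] at h1
        exact h1) hW (by rw [← degenerate_eq]; exact hDW)
    refine ⟨α, ρ, (smooth_iff α).2 hex.s1, (smooth_iff ρ).2 hex.s2, (isD_iff α ρ).2 hex.isD,
      hoff, fun x hx => ?_⟩
    rw [degenerate_eq] at hx
    exact hpos x hx
  have glob : ∀ ζ₀ : Form (ES d) X 2, Solvable σ J ζ₀ (Degenerate σ) →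
      ∀ z ∈ Degenerate σ, Solvable σ J ζ₀ (Comp σ z) := by
    rintro ζ₀ ⟨α, ρ, h1, h2, h3, h4⟩ z hz
    exact ⟨α, ρ, h1, h2, h3, fun x hx => h4 x (sub z hx)⟩
  -- the Helly type theorem for families
  have one : ∀ ζ₀ : Form (ES d) X 2, IsSmooth ζ₀ →
      ((∃ t : Fin b → ℝ, Solvable σ J (family ζ₀ ζ t) (Degenerate σ)) ↔
        ∀ z : Fin (b + 1) → X, (∀ j, z j ∈ Degenerate σ) →
          ∃ t : Fin b → ℝ, ∀ j, Solvable σ J (family ζ₀ ζ t) (Comp σ (z j))) := by
    intro ζ₀ h₀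
    constructor
    · rintro ⟨t, ht⟩ z hz
      exact ⟨t, fun j => glob _ ht _ (hz j)⟩
    · intro h
      obtain ⟨t, ht⟩ := Pool.Agent.V7H58.SF.helly_solv (d := d) (X := X) (σ := σ) (J := J)
        hσ' hJ' (ζ₀ := ζ₀) (ζ := ζ) ((smooth_iff ζ₀).1 h₀) hζ' (fun z hz => by
          obtain ⟨t, ht⟩ := h z (fun j => by rw [degenerate_eq]; exact hz j)
          refine ⟨t, fun j => ?_⟩
          have h1 := (solvable_iff σ J _ _).1 (ht j)
          rw [comp_eq, family_eq] at h1
          exact h1)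
      obtain ⟨α, ρ, hex, -, hpos⟩ := Pool.Agent.V7H58.SF.solv_of_comp (d := d) (X := X)
        (σ := σ) (J := J) hσ' hJ' hwD (ζ := Pool.Agent.V7H58.SF.fam (d := d) (X := X) ζ₀ ζ t)
        (Pool.Agent.V7H58.SF.fam_smooth (d := d) (X := X) ((smooth_iff ζ₀).1 h₀) hζ' t)
        ht isOpen_univ (subset_univ _)
      refine ⟨t, ?_⟩
      rw [solvable_iff, family_eq, degenerate_eq]
      exact ⟨α, ρ, hex, hpos⟩
  have two : (∀ η : Form (ES d) X 2, IsSmooth η → IsClosedForm η →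
        ∃ (t : Fin b → ℝ) (α : Form (ES d) X 1) (ρ : Form (ES d) X 2),
          IsSmooth α ∧ IsSmooth ρ ∧ IsD α ρ ∧ η = addF (family (fun _ => 0) ζ t) ρ) →
      (∀ z : Fin (b + 1) → X, (∀ j, z j ∈ Degenerate σ) →
          ∃ η : Form (ES d) X 2, IsSmooth η ∧ IsClosedForm η ∧ ∀ j, PosOn σ J η (Comp σ (z j))) →
      ∃ η : Form (ES d) X 2, IsSmooth η ∧ IsClosedForm η ∧ PosOn σ J η (Degenerate σ) := by
    intro hspan h
    obtain ⟨t, α, ρ, h1, h2, h3, h4⟩ := (one (fun _ => 0) zs).2 (fun z hz => by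
      obtain ⟨η, g1, g2, g3⟩ := h z hz
      obtain ⟨t, α, ρ, g4, g5, g6, g7⟩ := hspan η g1 g2
      refine ⟨t, fun j => ⟨α, ρ, g4, g5, g6, ?_⟩⟩
      rw [← g7]
      exact g3 j)
    obtain ⟨fs, fc⟩ := family_closed (ζ₀ := fun _ => 0) zs zc hζ hζc t
    obtain ⟨g1, g2⟩ := sumc _ ρ fs fc h2 (exc α ρ h1 h2 h3)
    exact ⟨_, g1, g2, h4⟩
  refine ⟨fun η h1 h2 h3 τ h5 h6 => ?_, fun ζ₀ h₀ h₀c => ⟨one ζ₀ h₀, fun h W hW hDW =>
    loc ζ₀ h₀ (glob ζ₀ h) W hW hDW, fun z hz h => ?_, fun hns => ⟨?_, fun h => ?_⟩⟩,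
    fun hspan => ⟨⟨?_, two hspan⟩, fun hns => ⟨?_, fun h => ?_⟩⟩⟩
  · obtain ⟨ε₀, hε₀, hnd⟩ := Pool.Agent.V7H58.SF.nd_of_posK (d := d) (X := X)
      (σ := σ) (J := J) hσ' hJ' hN hDN' hw (τ := τ) (η := η) ((smooth_iff τ).1 h5)
      ((smooth_iff _).1 h1) (by rw [← degenerate_eq]; exact h6)
      (by rw [← degenerate_eq]; exact h3)
    have hseg : ∀ ε s : ℝ,
        (segment (comb σ ε τ) (comb σ ε η) s : Form (ES d) X 2) =
        Pool.Agent.Q130.SF.mix (d := d) (X := X) σ τ η ε s := by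
      intro ε s
      funext x
      show (1 - s) • (σ x + ε • τ x) + s • (σ x + ε • η x) =
        σ x + ε • ((1 - s) • τ x + s • η x)
      rw [smul_add, smul_add, smul_add, smul_smul, smul_smul, smul_smul, smul_smul,
        mul_comm ε (1 - s), mul_comm ε s]
      have h7 : (1 - s) • σ x + s • σ x = σ x := by
        rw [← add_smul, sub_add_cancel, one_smul]
      calc (1 - s) • σ x + ((1 - s) * ε) • τ x + (s • σ x + (s * ε) • η x) =
          ((1 - s) • σ x + s • σ x) + (((1 - s) * ε) • τ x + (s * ε) • η x) := by abel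
        _ = _ := by rw [h7]
    refine ⟨ε₀, hε₀, fun ε g1 g2 => ⟨?_, fun s g3 g4 => ?_⟩⟩
    · obtain ⟨k1, k2⟩ := combc η ε h1 h2
      refine ⟨k1, k2, ?_⟩
      intro x v hv
      have g3 := hnd ε g1 g2 1 zero_le_one le_rfl x
      refine g3 v fun w => ?_
      have g4 := hv w
      have g5 : (segment (comb σ ε τ) (comb σ ε η) 1 : Form (ES d) X 2) x =
          comb σ ε η x := by
        show (1 - (1 : ℝ)) • (comb σ ε τ x) + (1 : ℝ) • (comb σ ε η x) = comb σ ε η x
        rw [sub_self, zero_smul, zero_add, one_smul]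
      rw [← hseg, g5]
      exact g4
    · rw [hseg]
      exact fun x v hv => hnd ε g1 g2 s g3 g4 x v hv
  · rw [solvable_iff]
    have hC : IsCompact (Comp σ z) := by
      rw [comp_eq]
      refine Pool.Agent.Y501.SY.compact_comp
        (Pool.Agent.V7H58.SF.isClosed_Fib (d := d) (X := X) hσ' z).isCompact ?_
      refine Pool.Agent.V7H58.SF.Fib.self (d := d) (X := X) ?_
      rw [← degenerate_eq]
      exact hz
    have hwC : ∀ x ∈ Comp σ z, ∀ v : TangentSpace 𝓘(ℝ, ES d) x, 0 ≤ qd σ J x v :=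
      fun x hx => hw x (hDN (sub z hx))
    have h₀' := (smooth_iff ζ₀).1 h₀
    rcases h with h | ⟨α, ρ, h1, h2, h3, h4, h5⟩
    · exact Pool.Agent.V7H58.SF.solv_planar (d := d) (X := X) (σ := σ) (J := J) hσ' hJ' hC hwC
        (ζ := ζ₀) h₀' (Pool.Agent.Y391.SY.t_HAUS d X (Comp σ z) h)
    · have hexc : Exceptional σ J (addF ζ₀ ρ) (Comp σ z) = {x | x ∈ Comp σ z ∧
          ¬ Pool.Agent.V7H58.SF.PosK (d := d) (X := X) σ J (addF ζ₀ ρ) x} := by
        ext x
        constructor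
        · rintro ⟨hx, v, hv, hv0, hq⟩
          refine ⟨hx, fun hpos => ?_⟩
          have h6 : 0 < qd (addF ζ₀ ρ) J x v := hpos v hv hv0
          rw [hq] at h6
          exact lt_irrefl _ h6
        · rintro ⟨hx, hnp⟩
          by_contra hcon
          apply hnp
          intro v hv hv0
          have h6 : 0 ≤ qd (addF ζ₀ ρ) J x v := h4 x hx v hv
          rcases lt_or_eq_of_le h6 with h7 | h7
          · exact h7
          · exact absurd ⟨hx, v, hv, hv0, h7.symm⟩ hcon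
      refine Pool.Agent.V7H58.SF.solv_two (d := d) (X := X) (σ := σ) (J := J) hσ' hJ' hC hwC
        (ζ := ζ₀) h₀' (α₀ := α) (ρ₀ := ρ)
        ⟨(smooth_iff α).1 h1, (smooth_iff ρ).1 h2, (isD_iff α ρ).1 h3⟩
        (fun x hx v hv => h4 x hx v hv) (fun y hy => ?_)
      have h6 := h5 y (by rw [hexc]; exact hy)
      rw [hexc] at h6
      exact Pool.Agent.Y391.SY.t_HAUS d X _ h6
  · rintro ⟨t, α, ρ, ε₀, h1, h2, h3, hε₀, h4⟩
    refine (one ζ₀ h₀).1 ⟨t, α, ρ, h1, h2, h3, fun x _ v hv hv0 => ?_⟩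
    have h5 := (h4 ε₀ hε₀ le_rfl).tames x v hv0
    have h6 : qd (comb σ ε₀ (addF (family ζ₀ ζ t) ρ)) J x v =
        σ x ![v, J x v] + ε₀ * qd (addF (family ζ₀ ζ t) ρ) J x v := rfl
    rw [h6, hv (J x v), zero_add] at h5
    exact (mul_pos_iff_of_pos_left hε₀).1 h5
  · obtain ⟨t, α, ρ, h1, h2, h3, h4⟩ := (one ζ₀ h₀).2 h
    obtain ⟨fs, fc⟩ := family_closed h₀ h₀c hζ hζc t
    obtain ⟨g1, g2⟩ := sumc _ ρ fs fc h2 (exc α ρ h1 h2 h3)
    obtain ⟨ε₀, hε₀, ht⟩ := Pool.Agent.V7H58.SF.tame_of_semi (d := d) (X := X) (σ := σ)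
      (J := J) hσ' hJ' hns.1 hns.2 (η := addF (family ζ₀ ζ t) ρ) ((smooth_iff _).1 g1)
      (by rw [← degenerate_eq]; exact h4)
    refine ⟨t, α, ρ, ε₀, h1, h2, h3, hε₀, fun ε g3 g4 => ?_⟩
    obtain ⟨k1, k2⟩ := combc _ ε g1 g2
    exact symp_of k1 k2 (ht ε g3 g4)
  · rintro ⟨η, h1, h2, h3⟩ z hz
    exact ⟨η, h1, h2, fun j x hx => h3 x (sub _ hx)⟩
  · rintro ⟨θ, hθ⟩ z hz
    exact ⟨θ, hθ.smooth, hθ.closed, fun j x _ v _ hv0 => hθ.tames x v hv0⟩
  · obtain ⟨η, h1, h2, h3⟩ := two hspan h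
    obtain ⟨ε₀, hε₀, ht⟩ := Pool.Agent.V7H58.SF.tame_of_semi (d := d) (X := X) (σ := σ)
      (J := J) hσ' hJ' hns.1 hns.2 (η := η) ((smooth_iff _).1 h1)
      (by rw [← degenerate_eq]; exact h3)
    obtain ⟨g1, g2⟩ := combc η ε₀ h1 h2
    exact ⟨_, symp_of g1 g2 (ht ε₀ hε₀ le_rfl)⟩

end Pool.Agent.Results.MP_9986fc_gt.KernelTamingH58
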