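import Mathlib
import Pool.Agent.V7H86.SG.Fin

/-!
# Unbounded isolated singularities of closed two-forms taming an almost complex structure

`X` is a closed manifold of dimension `d` with a continuous almost complex structure `J`, and `K`
is a closed subset whose `(d-1)`-dimensional Hausdorff measure is zero. `σ` is a two-form which is
smooth, closed and weakly taming off `K`. At each point of `K` either `σ` is bounded, or the
point is isolated in `K` and `σ` grows there at most like the power `-γ` of the distance, where
`γ < 2 + θ` and `γ < d - 1`, and `J` is Hölder continuous with exponent `θ ≥ 0` near the point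
(for a Lipschitz continuous `J` this means `γ < 3`). If the components of the set of points near
which `σ` is not uniformly taming are small, then `J` is tamed by a symplectic form, which is
equal to `σ + dα` with a smooth one-form `α` outside a given neighbourhood of `K`.

The singularity is removed by a mollification at scale `ε`; the loss of positivity, of order
`ε ^ θ * (|z| ^ 2 + ε ^ 2) ^ (-γ / 2)`, is compensated by the exterior derivative of a small
multiple of the potential `(g(z, z) + ε ^ 2) ^ (κ - 1) * g(J z, ·)`.
-/

set_option autoImplicit false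

open Set MeasureTheory
open scoped Manifold ContDiff

namespace Pool.Agent.Results.MP_9986fc_gt.UnboundedSingularitiesH86

open Pool.Agent.Y501.SYP Pool.Agent.V7H86.SG

theorem result (d : ℕ) (hd : 1 ≤ d) (X : Type) [TopologicalSpace X] [ChartedSpace (ES d) X]
    [IsManifold 𝓘(ℝ, ES d) ∞ X] [CompactSpace X] [T2Space X]
    (J : End (ES d) X) (hJ : IsAlmostComplex J) (K : Set X) (hK : IsClosed K)
    (hH : ∀ x₀ : X, μH[(d : ℝ) - 1] (chartAt (ES d) x₀ '' (K ∩ (chartAt (ES d) x₀).source)) = 0)
    (σ : Form (ES d) X 2) (hσ : ClosedOff σ K)
    (hb : ∀ x ∈ K, BddNear σ K x ∨ MildSing σ J K x)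
    (hpos : ∀ x, x ∉ K → ∀ v : TangentSpace 𝓘(ℝ, ES d) x, 0 ≤ qd σ J x v)
    (hsmall : ∀ z ∈ Crit σ J K, SmallAll J (connectedComponentIn (Crit σ J K) z) z)
    (U : Set X) (hU : IsOpen U) (hKU : K ⊆ U) :
    ∃ (α : Form (ES d) X 1) (η w : Form (ES d) X 2), IsSmooth α ∧ IsSmooth η ∧ IsD α η ∧
      IsTamingSymplectic w J ∧ ∀ x, x ∉ U → w x = addF σ η x :=
  mildSing hd J hJ K hK hH σ hσ hb hpos hsmall U hU hKU

end Pool.Agent.Results.MP_9986fc_gt.UnboundedSingularitiesH86
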